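import Mathlib

namespace Pool.Agent.Results.MP_6ec7bd_co.Counter

/-- `|w|_v`: number of (possibly overlapping) occurrences of the nonempty word `v` in `w`.
Binary words are lists of booleans, `true` for `1`. -/
def occ (w v : List Bool) : ℕ :=
  ((List.range w.length).filter (fun p => decide ((w.drop p).take v.length = v))).length

/-- `[w]_2`. -/
def val (w : List Bool) : ℕ := w.foldl (fun a b => 2 * a + b.toNat) 0

/-- `(n)_2`, most significant bit first, without leading zeros; empty for `n = 0`. -/
def bin (n : ℕ) : List Bool :=
  if n = 0 then [] else (List.range (Nat.log2 n + 1)).reverse.map (fun t => n.testBit t)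

/-- Number `i` of leading zeros of `v`. -/
def lead (v : List Bool) : ℕ := (v.takeWhile (fun b => !b)).length

/-- Number `j` of trailing zeros of `v`. -/
def trail (v : List Bool) : ℕ := (v.reverse.takeWhile (fun b => !b)).length

/-- `e_v(n) = |0^i (n)_2|_v`. -/
def e (v : List Bool) (n : ℕ) : ℕ := occ (List.replicate (lead v) false ++ bin n) v

/-- `A_v(0,d)`. -/
noncomputable def A (v : List Bool) (d : ℕ) : ℕ := sInf {l | 1 ≤ l ∧ e v (l * d) % 2 = 1}

/-- The pair `(x, y)` of words of length `|v| - 1` has `|0^i x|_v + |y x|_v + |y 0^j|_v` odd. -/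
def Good (v x y : List Bool) : Prop :=
  x.length = v.length - 1 ∧ y.length = v.length - 1 ∧
    (occ (List.replicate (lead v) false ++ x) v + occ (y ++ x) v +
      occ (y ++ List.replicate (trail v) false) v) % 2 = 1

/-- `(x, y)` is the lexicographically least good pair (words of equal length are compared by
the integers they represent). -/
def IsMinPair (v x y : List Bool) : Prop :=
  Good v x y ∧ ∀ x' y', Good v x' y' → val x < val x' ∨ (x = x' ∧ val y ≤ val y')

/-- `C_v`, computed from `x_min`. -/
def C (v x : List Bool) : ℚ := (val x : ℚ) / 2 ^ (v.length - 1 + trail v)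

/-- `B_v`, computed from `x_min` and `y_min`. -/
def B (v x y : List Bool) : ℚ := (val y : ℚ) - 2 ^ trail v * C v x

instance (v x y : List Bool) : Decidable (Good v x y) := by unfold Good; infer_instance

theorem small : ∀ l < 11, 1 ≤ l → e [true, false, false, false, false] (l * 2115) % 2 ≠ 1 := by
  decide +kernel

theorem A_eq : A [true, false, false, false, false] 2115 = 11 := by
  have h11 : 11 ∈ {l | 1 ≤ l ∧ e [true, false, false, false, false] (l * 2115) % 2 = 1} := by
    refine ⟨by norm_num, by decide +kernel⟩
  apply le_antisymm (Nat.sInf_le h11)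
  by_contra hc
  have hm := Nat.sInf_mem ⟨11, h11⟩
  exact small _ (not_le.mp hc) hm.1 hm.2

theorem minpair : ∀ a b c d a' b' c' d' : Bool,
    Good [true, false, false, false, false] [a, b, c, d] [a', b', c', d'] →
      val [false, false, false, true] < val [a, b, c, d] ∨
        ([false, false, false, true] = [a, b, c, d] ∧
          val [false, false, false, true] ≤ val [a', b', c', d']) := by
  decide +kernel

theorem len4 (x : List Bool) (h : x.length = 4) : ∃ a b c d, x = [a, b, c, d] := by
  match x, h with
  | [a, b, c, d], _ => exact ⟨a, b, c, d, rfl⟩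

theorem result : ∃ (v x y : List Bool) (d : ℕ), 2 ≤ v.length ∧ true ∈ v ∧ v ≠ [true, true] ∧
    IsMinPair v x y ∧ 2 ^ (2 * v.length + 1) ≤ d ∧ C v x * d + B v x y < (A v d : ℚ) := by
  refine ⟨[true, false, false, false, false], [false, false, false, true],
    [false, false, false, true], 2115, by decide, by decide, by decide, ⟨by decide +kernel, ?_⟩,
    by decide, ?_⟩
  · intro x' y' h
    obtain ⟨a, b, c, d, rfl⟩ := len4 x' h.1
    obtain ⟨a', b', c', d', rfl⟩ := len4 y' h.2.1
    exact minpair _ _ _ _ _ _ _ _ h
  · rw [A_eq]
    have h1 : val [false, false, false, true] = 1 := by decide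
    have h2 : trail [true, false, false, false, false] = 4 := by decide
    simp only [B, C, h1, h2]
    norm_num

end Pool.Agent.Results.MP_6ec7bd_co.Counter
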